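import Pool.Agent.Helper23.SP.St.Stubs

set_option autoImplicit false

/-!
# Project SP, piece SP-E: the recursion over window lengths
-/

namespace Pool.Agent.Helper78.SP

open Finset
open Pool.Agent.Helper23.SP
open Pool.Agent.Helper23.SP.St

variable {El V : Type} [Fintype El] [DecidableEq El] {k b U : ℕ} [NeZero b]

lemma pre_pre (r : ℕ) (y : Fin k → Fin b) : pre r (pre r y) = pre r y := by
  funext i
  simp only [pre]
  split_ifs <;> rfl

/-- The caps on the number of revealed elements in a cell. -/
def cap (x s β r j : ℕ) : ℕ := max x (s * β ^ (r - j))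

lemma cap_succ {x s β : ℕ} (hβ : 1 ≤ β) (r j : ℕ) : cap x s β r j ≤ β * cap x s β r (j + 1) := by
  unfold cap
  apply max_le
  · calc x = 1 * x := (one_mul x).symm
      _ ≤ β * x := Nat.mul_le_mul_right _ hβ
      _ ≤ _ := Nat.mul_le_mul_left _ (le_max_left _ _)
  · rcases Nat.lt_or_ge j r with h | h
    · have : r - j = (r - (j + 1)) + 1 := by omega
      rw [this]
      calc s * β ^ (r - (j + 1) + 1) = β * (s * β ^ (r - (j + 1))) := by ring
        _ ≤ _ := Nat.mul_le_mul_left _ (le_max_right _ _)
    · have h1 : r - j = 0 := by omega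
      have h2 : r - (j + 1) = 0 := by omega
      rw [h1, h2]
      calc s * β ^ 0 ≤ β * (s * β ^ 0) := by nlinarith
        _ ≤ _ := Nat.mul_le_mul_left _ (le_max_right _ _)

open Classical in
/-- The collision event. -/
noncomputable def evColl {W : ℕ} (P : Proc El k b U (Fin W)) (x β : ℕ) (t0 : ℕ) (v : Fin W)
    (r : Fin k) : Finset (Om El k b U) :=
  univ.filter (fun ω : Om El k b U =>
      (P.rev ω t0 v (β ^ r.val) r.val).card ≤ 2 * x * β ∧
      (∀ c, ((P.rev ω t0 v (β ^ r.val) r.val).filter
        (fun e => pre r.val (ω.1 e) = c)).card ≤ x) ∧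
      x + ((P.rev ω t0 v (β ^ r.val) r.val).image (g r ω)).card ≤
        (P.rev ω t0 v (β ^ r.val) r.val).card)

open Classical in
/-- The cell event. -/
noncomputable def evCell {W : ℕ} (P : Proc El k b U (Fin W)) (x s β : ℕ) (t0 : ℕ) (v : Fin W)
    (r j : Fin k) (c : Fin k → Fin b) : Finset (Om El k b U) :=
  univ.filter (fun ω : Om El k b U =>
      ((P.rev ω t0 v (β ^ r.val) j.val).filter
        (fun e => pre j.val (ω.1 e) = pre j.val c)).card ≤ cap x s β r.val j.val ∧
      cap x s β r.val (j.val + 1) + 1 ≤ ((P.rev ω t0 v (β ^ r.val) j.val).filter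
        (fun e => pre (j.val + 1) (ω.1 e) = pre (j.val + 1) c)).card)

lemma evColl_card {W : ℕ} (P : Proc El k b U (Fin W)) {s : ℕ} (hP : P.OK s) {x β : ℕ}
    (hx : 1 ≤ x) (hb : b = 20 * x * β) (hU : U = b ^ 2) (t0 : ℕ)
    (v : Fin W) (r : Fin k) :
    (evColl P x β t0 v r).card * 2 ^ x ≤ Fintype.card (Om El k b U) := by
  classical
  have h : 5 * (2 * x * β) * (x * U + (2 * x * β) * b) ≤ x * b * U := by
    have h1 : 2 * β ≤ b := by rw [hb]; nlinarith
    have h2 : 5 * (2 * x * β) * (x * U + (2 * x * β) * b) = x * b * (10 * x * β * (b + 2 * β)) := by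
      rw [hU]; ring
    have h3 : x * b * U = x * b * ((20 * x * β) * b) := by rw [← hb, hU]; ring
    rw [h2, h3]
    apply Nat.mul_le_mul_left
    calc 10 * x * β * (b + 2 * β) ≤ 10 * x * β * (b + b) := by
          apply Nat.mul_le_mul_left; omega
      _ = 20 * x * β * b := by ring
  have key := coll_bad P hP r t0 v (β ^ r.val) (2 * x * β) x x h
  unfold evColl
  convert key

lemma evCell_card {W : ℕ} (P : Proc El k b U (Fin W)) {s : ℕ} (hP : P.OK s) {x β : ℕ}
    (hx : 1 ≤ x) (hβ : 1 ≤ β) (hb : b = 20 * x * β) (t0 : ℕ)
    (v : Fin W) (r j : Fin k) (c : Fin k → Fin b) :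
    (evCell P x s β t0 v r j c).card * 2 ^ x ≤ Fintype.card (Om El k b U) := by
  classical
  have h : 5 * cap x s β r.val j.val ≤ (cap x s β r.val (j.val + 1) + 1) * b := by
    have h1 := cap_succ (x := x) (s := s) hβ r.val j.val
    calc 5 * cap x s β r.val j.val ≤ 5 * (β * cap x s β r.val (j.val + 1)) :=
          Nat.mul_le_mul_left _ h1
      _ = cap x s β r.val (j.val + 1) * (5 * β) := by ring
      _ ≤ (cap x s β r.val (j.val + 1) + 1) * b := by
          apply Nat.mul_le_mul (Nat.le_succ _)
          rw [hb]; nlinarith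
  have key := cell_bad P hP j t0 v (β ^ r.val) (cap x s β r.val j.val)
    (cap x s β r.val (j.val + 1) + 1) c h
  have h2 : 2 ^ x ≤ 2 ^ (cap x s β r.val (j.val + 1) + 1) := by
    apply Nat.pow_le_pow_right (by norm_num)
    exact (le_max_left _ _).trans (Nat.le_succ _)
  refine (Nat.mul_le_mul_left _ h2).trans ?_
  unfold evCell
  convert key

/-- The bad set. -/
noncomputable def badSet {W : ℕ} (P : Proc El k b U (Fin W)) (x s β T : ℕ) :
    Finset (Om El k b U) :=
  by
    classical
    exact (univ : Finset (Fin T × Fin W × Fin k × Option (Fin k × (Fin k → Fin b)))).biUnion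
      fun i => match i.2.2.2 with
        | none => evColl P x β i.1.val i.2.1 i.2.2.1
        | some jc => evCell P x s β i.1.val i.2.1 i.2.2.1 jc.1 jc.2

theorem window_main {W : ℕ} (P : Proc El k b U (Fin W)) {s : ℕ} (hP : P.OK s) {x β T : ℕ}
    (hs : s ≤ x) (hx : 1 ≤ x) (hβ : 1 ≤ β) (hb : b = 20 * x * β) (hU : U = b ^ 2) (hk : 1 ≤ k) :
    ∃ Bad : Finset (Om El k b U),
      Bad.card * 2 ^ x ≤ T * W * (k + k ^ 2 * b ^ k) * Fintype.card (Om El k b U) ∧
      ∀ ω, ω ∉ Bad → ∀ t0 v, t0 + β ^ (k - 1) ≤ T →
        (P.rev ω t0 v (β ^ (k - 1)) k).card ≤ 2 * x := by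
  classical
  refine ⟨badSet P x s β T, ?_, ?_⟩
  · unfold badSet
    have hcard : Fintype.card (Fin T × Fin W × Fin k × Option (Fin k × (Fin k → Fin b))) =
        T * W * (k + k ^ 2 * b ^ k) := by
      simp only [Fintype.card_prod, Fintype.card_fin, Fintype.card_option, Fintype.card_fun]
      ring
    rw [← hcard]
    refine (Nat.mul_le_mul_right _ card_biUnion_le).trans ?_
    rw [sum_mul]
    refine (sum_le_card_nsmul _ _ (Fintype.card (Om El k b U)) ?_).trans ?_
    · rintro ⟨t, v, r, o⟩ _
      cases o with
      | none => exact evColl_card P hP hx hb hU _ _ _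
      | some jc => exact evCell_card P hP hx hβ hb _ _ _ _ _
    · rw [card_univ, smul_eq_mul]
  · intro ω hω
    have hcoll : ∀ t0 < T, ∀ (v : Fin W) (r : Fin k), ω ∉ evColl P x β t0 v r := by
      intro t0 ht v r h
      apply hω
      unfold badSet
      rw [mem_biUnion]
      exact ⟨(⟨t0, ht⟩, v, r, none), mem_univ _, h⟩
    have hcell : ∀ t0 < T, ∀ (v : Fin W) (r j : Fin k) (c : Fin k → Fin b),
        ω ∉ evCell P x s β t0 v r j c := by
      intro t0 ht v r j c h
      apply hω
      unfold badSet
      rw [mem_biUnion]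
      exact ⟨(⟨t0, ht⟩, v, r, some (j, c)), mem_univ _, h⟩
    have main : ∀ r : ℕ, r + 1 ≤ k → ∀ t0 v, t0 + β ^ r ≤ T →
        (P.rev ω t0 v (β ^ r) (r + 1)).card ≤ 2 * x := by
      intro r
      induction r with
      | zero =>
        intro _ t0 v _
        refine (rev_card_le hP ω t0 v _ _).trans ?_
        rw [pow_zero]; omega
      | succ r ih =>
        intro hr t0 v ht
        have hr' : r + 1 < k := by omega
        have hpow : β ^ (r + 1) = β * β ^ r := by ring
        have hpos : 0 < β ^ r := Nat.pow_pos hβ
        have hpos' : 0 < β ^ (r + 1) := Nat.pow_pos hβ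
        have htT : t0 < T := by omega
        -- bound on level `r + 1`
        have hA : (P.rev ω t0 v (β ^ (r + 1)) (r + 1)).card ≤ β * (2 * x) := by
          rw [hpow]
          apply rev_mul_card
          intro j hj
          apply ih (by omega)
          have : j * β ^ r + β ^ r ≤ β * β ^ r := by
            calc j * β ^ r + β ^ r = (j + 1) * β ^ r := by ring
              _ ≤ β * β ^ r := Nat.mul_le_mul_right _ hj
          rw [hpow] at ht
          omega
        -- cells
        have hN : ∀ j, j ≤ r + 1 → ∀ c : Fin k → Fin b,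
            ((P.rev ω t0 v (β ^ (r + 1)) j).filter
              (fun e => pre j (ω.1 e) = pre j c)).card ≤ cap x s β (r + 1) j := by
          intro j
          induction j with
          | zero =>
            intro _ c
            refine (card_filter_le _ _).trans ((rev_card_le hP ω t0 v _ _).trans ?_)
            exact le_max_right _ _
          | succ j ihj =>
            intro hj c
            have h1 := ihj (by omega) c
            have h2 := hcell t0 htT v ⟨r + 1, hr'⟩ ⟨j, by omega⟩ c
            unfold evCell at h2
            rw [mem_filter] at h2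
            have h3 : ¬ (cap x s β (r + 1) (j + 1) + 1 ≤
                ((P.rev ω t0 v (β ^ (r + 1)) j).filter
                  (fun e => pre (j + 1) (ω.1 e) = pre (j + 1) c)).card) := by
              intro h4
              apply h2
              refine ⟨mem_univ _, ?_, ?_⟩
              · convert h1 using 2
              · convert h4 using 2
            have h4 : ((P.rev ω t0 v (β ^ (r + 1)) (j + 1)).filter
                  (fun e => pre (j + 1) (ω.1 e) = pre (j + 1) c)).card ≤
                ((P.rev ω t0 v (β ^ (r + 1)) j).filter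
                  (fun e => pre (j + 1) (ω.1 e) = pre (j + 1) c)).card := by
              apply card_le_card
              apply filter_subset_filter
              exact rev_mono P ω t0 v le_rfl (Nat.le_succ j)
            omega
        have hNr := hN (r + 1) le_rfl
        have hcap : cap x s β (r + 1) (r + 1) = x := by
          unfold cap
          rw [Nat.sub_self, pow_zero, mul_one]
          exact max_eq_left hs
        rw [hcap] at hNr
        have h5 := hcoll t0 htT v ⟨r + 1, hr'⟩
        unfold evColl at h5
        rw [mem_filter] at h5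
        have h6 : (P.rev ω t0 v (β ^ (r + 1)) (r + 1)).card <
            x + ((P.rev ω t0 v (β ^ (r + 1)) (r + 1)).image (g ⟨r + 1, hr'⟩ ω)).card := by
          by_contra h7
          rw [not_lt] at h7
          apply h5
          refine ⟨mem_univ _, ?_, ?_, ?_⟩
          · refine hA.trans (le_of_eq (by ring))
          · intro c
            refine le_trans (card_le_card ?_) (hNr c)
            intro e he
            rw [mem_filter] at he ⊢
            refine ⟨he.1, ?_⟩
            have := he.2
            rw [← this]
            exact (pre_pre _ _).symm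
          · convert h7 using 2
        exact rev_succ_card P ω ⟨r + 1, hr'⟩ t0 v _ x h6
    intro t0 v ht
    have := main (k - 1) (by omega) t0 v ht
    have hk1 : k - 1 + 1 = k := by omega
    rw [hk1] at this
    exact this

end Pool.Agent.Helper78.SP
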